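import Pool.Agent.X32.Uni.Bitwin

/-!
# Cunningham chains of both kinds around a common centre, in almost primes

The chain of the first kind starting at `n - 1` consists of the numbers `2 ^ m n - 1`, and the chain of the second kind
starting at `n + 1` of the numbers `2 ^ m n + 1`. Let `(J_l, e_l)`, `l = 1, ..., k`, be an ARBITRARY set of pairs
of a position and a sign `e_l = ±1`, let `i ≠ j`, and let `R` be arbitrary. There are `C`, `t` and `κ > 0` such that
every interval `(A, B]`, `B ≤ X`, `B - A ≥ θ X`, contains at least `κ (B - A) / (log X) ^ k` integers `n` for which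
`2 ^ J_i n - e_i` is prime, `2 ^ J_j n - e_j` is a product of at most two primes `> X ^ (1 / 9)`, all the
`2 ^ J_l n - e_l` are products of at most `t` primes `> X ^ (1 / t)`, and every other number `2 ^ m n ± 1`, `m ≤ R`,
has a prime factor `≤ C`. So there are chains of both kinds of any lengths (in this weaker sense) which stop exactly
where prescribed. For every colouring with `r` colours almost all these `n` (all but `δ (B - A) / (log X) ^ k`) are
covered by pairwise disjoint monochromatic arithmetic progressions of `s` such `n`, with differences `≤ (log X) ^ c`.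
-/

set_option autoImplicit false

namespace Pool.Agent.Results.MP_c183ae_nt.BothKindsTogether

open Finset

variable {k : ℕ}

/-- `|v| > 1`, and `|v|` is a product of at most `r` primes, all of them larger than `y` -/
def Almost (r : ℕ) (y : ℝ) (v : ℤ) : Prop :=
  1 < |v| ∧ v.natAbs.primeFactorsList.length ≤ r ∧ ∀ q : ℕ, q.Prime → (q : ℤ) ∣ v → y < q

open Classical in
/-- the integers `n` of `(A, B]` described above -/
noncomputable def Good (J : Fin k → ℕ) (e : Fin k → ℤ) (i j : Fin k) (R C t X A B : ℕ) : Finset ℕ :=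
  (Ioc A B).filter (fun n : ℕ => (2 ^ J i * (n : ℤ) - e i).natAbs.Prime ∧
    Almost 2 ((X : ℝ) ^ (1 / 9 : ℝ)) (2 ^ J j * (n : ℤ) - e j) ∧
    (∀ l, Almost t ((X : ℝ) ^ (1 / (t : ℝ))) (2 ^ J l * (n : ℤ) - e l)) ∧
    ∀ m ≤ R, ∀ ε : ℤ, (ε = 1 ∨ ε = -1) → (∀ l, (J l, e l) ≠ (m, ε)) →
      ∃ q : ℕ, q.Prime ∧ q ≤ C ∧ (q : ℤ) ∣ 2 ^ m * (n : ℤ) - ε)

/-- the terms `a, a + b, ..., a + (s - 1) b` of the progression `z = (a, b)` -/
def terms (s : ℕ) (z : ℕ × ℕ) : Finset ℕ := (range s).image (fun i => z.1 + i * z.2)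

theorem result (J : Fin k → ℕ) (e : Fin k → ℤ) (he : ∀ l, e l = 1 ∨ e l = -1)
    (hinj : Function.Injective (fun l => (J l, e l))) (i j : Fin k) (hij : i ≠ j) (R : ℕ) :
    ∃ C t : ℕ, 1 ≤ t ∧ ∃ κ : ℝ, 0 < κ ∧ ∀ (s r : ℕ) (θ δ : ℝ), 1 ≤ s → 0 < θ → 0 < δ → ∃ c X₀ : ℕ,
      ∀ X : ℕ, X₀ ≤ X → ∀ A B : ℕ, B ≤ X → θ * X ≤ (B : ℝ) - A →
        κ * ((B : ℝ) - A) / Real.log X ^ k ≤ ((Good J e i j R C t X A B).card : ℝ) ∧
        ∀ χ : ℕ → Fin r, ∃ P : Finset (ℕ × ℕ),
          (∀ z ∈ P, 1 ≤ z.2 ∧ (z.2 : ℝ) ≤ Real.log X ^ c ∧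
            ∀ m < s, z.1 + m * z.2 ∈ Good J e i j R C t X A B ∧ χ (z.1 + m * z.2) = χ z.1) ∧
          (P : Set (ℕ × ℕ)).PairwiseDisjoint (terms s) ∧
          (((Good J e i j R C t X A B \ P.biUnion (terms s)).card : ℕ) : ℝ) ≤
            δ * ((B : ℝ) - A) / Real.log X ^ k :=
  Pool.Agent.X32.Uni.bitwinP J e he hinj i j hij R

end Pool.Agent.Results.MP_c183ae_nt.BothKindsTogether
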