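import Pool.Agent.X69.Ric.Pack

/-!
Pairs of Cunningham chains of the two kinds around the numbers `n, 2 n, 4 n, ...`, without small prime factors. Limit points of the vectors of consecutive normalised gaps.
-/

set_option autoImplicit false

namespace Pool.Agent.Results.MP_c183ae_nt.GapLimitVectors

open Filter MeasureTheory

/-- The numbers `n - 1, 2 n - 1, ..., 2 ^ (k - 1) n - 1` and `n + 1, 2 n + 1, ..., 2 ^ (k - 1) n + 1`: if they are all
prime, the first ones form a Cunningham chain of the first kind and the last ones a chain of the second kind. -/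
def chains (k n : ℕ) : Fin (2 * k) → ℕ := fun i =>
  if (i : ℕ) < k then 2 ^ (i : ℕ) * n - 1 else 2 ^ ((i : ℕ) - k) * n + 1

/-- `Many g A`: for some `c > 0` and all large `X`, the set `A` has at least `c X / (log X) ^ g` elements in `[1, X]`. -/
def Many (g : ℕ) (A : Set ℕ) : Prop :=
  ∃ c : ℝ, 0 < c ∧ ∀ᶠ X : ℕ in atTop, c * X / Real.log X ^ g ≤ ((A ∩ Set.Icc 1 X).ncard : ℝ)

/-- No prime factor of a component of `f n` is less than `n ^ δ`. -/
def Rough {g : ℕ} (f : ℕ → Fin g → ℕ) (δ : ℝ) (n : ℕ) : Prop :=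
  ∀ i, ∀ p : ℕ, p.Prime → p ∣ f n i → (n : ℝ) ^ δ ≤ p

/-- The `n ≥ 1` such that all the components of `f n` have at most `r` prime factors, counted with multiplicity,
none of them less than `n ^ (1 / r)`. -/
def Almost {g : ℕ} (f : ℕ → Fin g → ℕ) (r : ℕ) : Set ℕ :=
  {n | 1 ≤ n ∧ ∀ i, ArithmeticFunction.cardFactors (f n i) ≤ r ∧
    ∀ p : ℕ, p.Prime → p ∣ f n i → (n : ℝ) ^ (1 / (r : ℝ)) ≤ p}

/-- The vector of `m` consecutive normalised gaps `(a (k+i+1) - a (k+i)) / (log a (k+i)) ^ g`, `0 ≤ i < m`, of the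
set `A = {a 0 < a 1 < ...}`. -/
noncomputable def gaps (g : ℕ) (A : Set ℕ) (m k : ℕ) : Fin m → ℝ := fun i =>
  ((Nat.nth (· ∈ A) (k + i + 1) : ℝ) - Nat.nth (· ∈ A) (k + i)) / Real.log (Nat.nth (· ∈ A) (k + i)) ^ g

/-- The set of the limit points in `ℝ ^ m` of the vectors of `m` consecutive normalised gaps of `A`. -/
def LimitVectors (g : ℕ) (A : Set ℕ) (m : ℕ) : Set (Fin m → ℝ) := {t | MapClusterPt t atTop (gaps g A m)}

theorem result : ∀ k : ℕ, 1 ≤ k →
    (∀ A : Set ℕ, ∀ δ : ℝ, 0 < δ → (∀ n ∈ A, Rough (chains k) δ n) → Many (2 * k) A →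
      ∀ m : ℕ, 1 ≤ m → 0 < volume (LimitVectors (2 * k) A m)) ∧
    ∃ r : ℕ, 1 ≤ r ∧ Many (2 * k) (Almost (chains k) r) ∧ ∀ m : ℕ, 1 ≤ m → 0 < volume (LimitVectors (2 * k) (Almost (chains k) r) m) := by
  intro k hk
  refine Pool.Agent.X69.Ric.pack_gaps (by omega) (a := fun i : Fin (2 * k) => if (i : ℕ) < k then (2 : ℤ) ^ (i : ℕ) else 2 ^ ((i : ℕ) - k))
    (b := fun i : Fin (2 * k) => if (i : ℕ) < k then (-1 : ℤ) else 1)
    (f := chains k) (fun i => by split_ifs <;> positivity) ?_ ?_ ?_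
  · intro i j hij h
    have hi2 := i.2
    have hj2 := j.2
    split_ifs at h with h1 h2 h3
    · have h4 : (2 : ℤ) ^ (i : ℕ) = 2 ^ (j : ℕ) := by linarith
      exact hij (Fin.ext (Nat.pow_right_injective le_rfl (by exact_mod_cast h4)))
    · have h4 : (0 : ℤ) < 2 ^ (i : ℕ) := by positivity
      have h5 : (0 : ℤ) < 2 ^ ((j : ℕ) - k) := by positivity
      linarith
    · have h4 : (0 : ℤ) < 2 ^ ((i : ℕ) - k) := by positivity
      have h5 : (0 : ℤ) < 2 ^ (j : ℕ) := by positivity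
      linarith
    · have h4 : (2 : ℤ) ^ ((i : ℕ) - k) = 2 ^ ((j : ℕ) - k) := by linarith
      have h5 : (i : ℕ) - k = (j : ℕ) - k := Nat.pow_right_injective le_rfl (by exact_mod_cast h4)
      exact hij (Fin.ext (by omega))
  · intro p hp
    have h1 : ¬ (p : ℤ) ∣ 1 := fun h => hp.one_lt.ne' (Nat.dvd_one.1 (by exact_mod_cast h))
    refine ⟨0, fun i h => h1 ?_⟩
    simp only [mul_zero, zero_add] at h
    split_ifs at h with h2
    · exact (dvd_neg).1 h
    · exact h
  · intro n hn i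
    show ((if (i : ℕ) < k then 2 ^ (i : ℕ) * n - 1 else 2 ^ ((i : ℕ) - k) * n + 1 : ℕ) : ℤ) = _
    split_ifs with h1
    · have h2 : 1 ≤ 2 ^ (i : ℕ) * n := Nat.one_le_iff_ne_zero.2 (by positivity)
      rw [Nat.cast_sub h2]
      push_cast
      ring
    · push_cast
      ring

end Pool.Agent.Results.MP_c183ae_nt.GapLimitVectors
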