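import Pool.Agent.X37.RW.Signed

/-!
# Consecutive primes of twin Cunningham orbits near any `8 k ^ 2 + 1` times

The numbers `2 ^ l m - 1` (`l = 0, 1, 2, ...`) form an orbit of `q ↦ 2 q + 1` (chains of the first kind
are its runs of primes), the numbers `2 ^ l m + 1` an orbit of `q ↦ 2 q - 1` (second kind).

Let `k ≥ 1`. There is `C` such that for any times `x_0 ≤ x_1 ≤ ... ≤ x_(8 k ^ 2)` with any signs (kinds)
`σ_0, ..., σ_(8 k ^ 2)` there are `i_0 < ... < i_k` and `y_0 < ... < y_k` with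
`x_(i_j) ≤ y_j ≤ x_(i_j) + C` such that for infinitely many `m` the primes among ALL numbers
`2 ^ l m ± 1` with `y_0 ≤ l ≤ y_k` are exactly the `k + 1` numbers `2 ^ (y_j) m + σ_(i_j)`.
-/

set_option autoImplicit false

namespace Pool.Agent.Results.MP_c183ae_nt.NearAnySignedTimes

/-- `2 ^ l m + 1` for `s = true` (orbit of the second kind), `2 ^ l m - 1` for `s = false` (orbit of the
first kind) -/
def term (s : Bool) (l m : ℕ) : ℕ := if s then 2 ^ l * m + 1 else 2 ^ l * m - 1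

theorem result (k : ℕ) (hk : 1 ≤ k) : ∃ C : ℕ,
    ∀ (x : Fin (8 * k ^ 2 + 1) → ℕ) (σ : Fin (8 * k ^ 2 + 1) → Bool), Monotone x →
    ∃ (i : Fin (k + 1) → Fin (8 * k ^ 2 + 1)) (y : Fin (k + 1) → ℕ), StrictMono i ∧ StrictMono y ∧
      (∀ j, x (i j) ≤ y j ∧ y j ≤ x (i j) + C) ∧
      {m : ℕ | 0 < m ∧ (∀ j, (term (σ (i j)) (y j) m).Prime) ∧
        ∀ l s, y 0 ≤ l → l ≤ y (Fin.last k) → (term s l m).Prime →
          ∃ j, l = y j ∧ s = σ (i j)}.Infinite :=
  Pool.Agent.X37.RW.signed_points k hk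

end Pool.Agent.Results.MP_c183ae_nt.NearAnySignedTimes
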